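import Pool.Agent.Q283.EN.Stm3
import Pool.Agent.Q14.LK.Bas

/-!
# Project EN (helper283), job CPOW: the number of the classes is a power of `3`
-/

set_option autoImplicit false

namespace Pool.Agent.Q296.EN

open NumberField IsDedekindDomain WeierstrassCurve Finset
open Pool.Agent.Q283.LQ (Sm)
open Pool.Agent.Q7.LK Pool.Agent.Q7.CE Pool.Agent.Q283.EN
open Pool.Agent.Q14.LK (mon_ne mon_zero mon_add)
open Pool.Agent.TH841.SH.D (Pt)

section

variable {F : Type} [Field F] [NumberField F]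

theorem coe_alg (v : HeightOneSpectrum (𝓞 F)) (a : F) :
    (a : v.adicCompletion F) = algebraMap F (v.adicCompletion F) a := by
  rw [HeightOneSpectrum.algebraMap_adicCompletion]
  rfl

theorem coe_mul' (v : HeightOneSpectrum (𝓞 F)) (a b : F) :
    ((a * b : F) : v.adicCompletion F) = (a : v.adicCompletion F) * (b : v.adicCompletion F) := by
  rw [coe_alg, coe_alg, coe_alg, map_mul]

theorem exists_below (v : HeightOneSpectrum (𝓞 F)) : ∃ l : ℕ, l.Prime ∧ (l : 𝓞 F) ∈ v.asIdeal := by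
  have h0 : Ideal.absNorm v.asIdeal ≠ 0 := by
    rw [Ne, Ideal.absNorm_eq_zero_iff]
    exact v.ne_bot
  have h1 : ((Ideal.absNorm v.asIdeal : ℕ) : 𝓞 F) ∈ v.asIdeal := Ideal.absNorm_mem v.asIdeal
  have key : ∀ n : ℕ, n ≠ 0 → (n : 𝓞 F) ∈ v.asIdeal → ∃ l : ℕ, l.Prime ∧ (l : 𝓞 F) ∈ v.asIdeal := by
    intro n
    induction n using Nat.recOnMul with
    | zero => intro h; exact absurd rfl h
    | one =>
      intro _ h
      rw [Nat.cast_one] at h
      exact absurd ((Ideal.eq_top_iff_one _).2 h) v.isPrime.ne_top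
    | prime q hq => intro _ h; exact ⟨q, hq, h⟩
    | mul a b iha ihb =>
      intro hab h
      rw [Nat.cast_mul] at h
      have ha : a ≠ 0 := left_ne_zero_of_mul hab
      have hb : b ≠ 0 := right_ne_zero_of_mul hab
      rcases v.isPrime.mem_or_mem h with h | h
      · exact iha ha h
      · exact ihb hb h
  exact key _ h0 h1

theorem fin_val {c : F} (hc : c ≠ 0) :
    {v : HeightOneSpectrum (𝓞 F) | v.valuation F c ≠ 1}.Finite := by
  have h1 := HeightOneSpectrum.Support.finite (𝓞 F) c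
  have h2 := HeightOneSpectrum.Support.finite (𝓞 F) c⁻¹
  refine (h1.union h2).subset ?_
  intro v hv
  have hv0 : v.valuation F c ≠ 0 := (Valuation.ne_zero_iff _).2 hc
  rcases lt_or_gt_of_ne hv with h | h
  · right
    change 1 < v.valuation F c⁻¹
    rw [map_inv₀]
    exact (one_lt_inv₀ (zero_lt_iff.2 hv0)).2 h
  · left
    exact h

theorem fin_vl (p : ℕ) {c : F} (hc : c ≠ 0) :
    {v : HeightOneSpectrum (𝓞 F) | vl p v c ≠ 0}.Finite := by
  refine (fin_val hc).subset ?_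
  intro v hv h
  apply hv
  unfold vl
  rw [h, WithZero.log_one]
  simp

/-- all places with `vl p v D ≠ 0` are small if `y` is large -/
theorem all_small (p : ℕ) {D : F} (hD : D ≠ 0) : ∃ y0 : ℕ, ∀ y, y0 ≤ y → ∀ v : HeightOneSpectrum (𝓞 F),
    ¬ Sm y v → vl p v D = 0 := by
  classical
  have hf := fin_vl p hD
  choose l hl hlv using fun v : HeightOneSpectrum (𝓞 F) => exists_below v
  refine ⟨hf.toFinset.sup l, fun y hy v hv => ?_⟩
  by_contra h
  apply hv
  refine ⟨l v, hl v, le_trans ?_ hy, hlv v⟩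
  exact Finset.le_sup (f := l) (hf.mem_toFinset.2 h)

end

theorem isPow_div {F : Type} [Field F] {a x : F} {n : ℕ} (h : a = x ^ n) : IsPow n a := ⟨x, h⟩

/-- **CPOW** -/
theorem cpow : S_BAS → S_BASE → S_AEC → S_FEND → S_ELOC → S_ECX → S_CPOW := by
  classical
  intro hB hBASE hAEC hFEND hELOC hECX F _ _ ω D hω hD hnD
  have : Fact (Nat.Prime 3) := ⟨Nat.prime_three⟩
  obtain ⟨y1, h1⟩ := hBASE 3 (by norm_num) F ω hω
  obtain ⟨y2, h2⟩ := all_small (F := F) 3 hD
  obtain ⟨y, hy⟩ : ∃ y, y = max (max y1 y2) 3 := ⟨_, rfl⟩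
  obtain ⟨f, u, r, π, g, B, -⟩ := h1 y (by rw [hy]; exact le_trans (le_max_left _ _) (le_max_left _ _))
  have hsm := h2 y (by rw [hy]; exact le_trans (le_max_right _ _) (le_max_left _ _))
  have h3y : 3 ≤ y := by rw [hy]; exact le_max_right _ _
  have hdp : ∀ v : HeightOneSpectrum (𝓞 F), ¬ Sm y v → ¬ Dp 3 v := fun v hv h =>
    hv ⟨3, Nat.prime_three, h3y, h⟩
  -- the property
  set Pr : F → Prop := fun a => ∀ v : HeightOneSpectrum (𝓞 F), AE v D a with hPr
  have hex : Nonempty (HeightOneSpectrum (𝓞 F)) :=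
    ⟨(HeightOneSpectrum.equivMaximalSpectrum (RingOfIntegers.not_isField F)).symm Classical.ofNonempty⟩
  have hne : ∀ a, Pr a → a ≠ 0 := fun a ha => (ha hex.some).1
  have hmul : ∀ a b, Pr a → Pr b → Pr (a * b) := by
    intro a b ha hb v
    obtain ⟨θ, θ', -, -, -, hcl, -⟩ := hFEND F ω D hω hD
    obtain ⟨P, hP⟩ := (hAEC F v D a hD (hne a ha)).1 (ha v)
    obtain ⟨Q, hQ⟩ := (hAEC F v D b hD (hne b hb)).1 (hb v)
    refine (hAEC F v D (a * b) hD (mul_ne_zero (hne a ha) (hne b hb))).2 ⟨P + Q, ?_⟩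
    rw [coe_mul']
    exact (hcl (v.adicCompletion F) P).2.2.2.1 Q _ _ hP hQ
  have hcube : ∀ a x, Pr a → x ≠ 0 → Pr (a * x ^ 3) := by
    intro a x ha hx v
    exact (hELOC F v D hD).1 a (x ^ 3) (ha v) ((hB 3 F v).2.2.1 x hx)
  have hpow : ∀ a, Pr a → ∀ n : ℕ, Pr (a ^ n) := fun a ha n v => (hELOC F v D hD).2.2.2 a (ha v) n
  have hone : Pr 1 := by
    intro v
    refine ⟨one_ne_zero, 1, 1, 0, Or.inl one_ne_zero, ?_⟩
    rw [coe_alg, map_one]
    ring
  have hPD : Pr D := by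
    intro v
    have := (hELOC F v D hD).2.2.1 1 (hone v)
    rwa [one_mul] at this
  have hmn : ∀ c : Fin f → ZMod 3, mon u c ≠ 0 := fun c => mon_ne B.ue c
  have hm0 : mon u (0 : Fin f → ZMod 3) = 1 := mon_zero
  have hadd : ∀ c c' : Fin f → ZMod 3, ∃ x : F, x ≠ 0 ∧ mon u c * mon u c' = mon u (c + c') * x ^ 3 :=
    fun c c' => mon_add B.ue c c'
  -- the subspace
  have hW0 : Pr (mon u (0 : Fin f → ZMod 3)) := by rw [hm0]; exact hone
  have hWadd : ∀ c c' : Fin f → ZMod 3, Pr (mon u c) → Pr (mon u c') → Pr (mon u (c + c')) := by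
    intro c c' h h'
    obtain ⟨x, hx, hxe⟩ := hadd c c'
    have e : mon u (c + c') = mon u c * mon u c' * x⁻¹ ^ 3 := by
      rw [hxe, mul_assoc, ← mul_pow, mul_inv_cancel₀ hx, one_pow, mul_one]
    rw [e]
    exact hcube _ _ (hmul _ _ h h') (inv_ne_zero hx)
  have hWsmul : ∀ (t : ZMod 3) (c : Fin f → ZMod 3), Pr (mon u c) → Pr (mon u (t • c)) := by
    intro t c h
    have h3 : ∀ n : ℕ, Pr (mon u (n • c)) := by
      intro n
      induction n with
      | zero => rw [zero_smul]; exact hW0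
      | succ n ih => rw [succ_nsmul]; exact hWadd _ _ ih h
    have := h3 t.val
    rwa [← Nat.cast_smul_eq_nsmul (ZMod 3), ZMod.natCast_val, ZMod.cast_id', id] at this
  let W : Submodule (ZMod 3) (Fin f → ZMod 3) :=
    { carrier := {c | Pr (mon u c)}
      add_mem' := fun {c c'} h h' => hWadd c c' h h'
      zero_mem' := hW0
      smul_mem' := fun t c h => hWsmul t c h }
  have hWmem : ∀ c, c ∈ W ↔ Pr (mon u c) := fun c => Iff.rfl
  have hcard : Nat.card W = 3 ^ Module.finrank (ZMod 3) W := by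
    rw [Module.natCard_eq_pow_finrank (K := ZMod 3), Nat.card_zmod]
  -- full
  have hfull : ∀ b, Pr b → ∃ c ∈ W, IsPow 3 (b / mon u c) := by
    intro b hb
    obtain ⟨c, x, hx⟩ := B.full b (hne b hb) fun v hv =>
      ((hECX F ω hω v D b (hdp v hv) hD (hne b hb)).1 (hb v)).1 (hsm v hv)
    have hx0 : x ≠ 0 := by
      rintro rfl
      rw [zero_pow (by norm_num)] at hx
      exact mul_ne_zero (hne b hb) (hmn c) hx
    obtain ⟨t, ht, hte⟩ := hadd (-c) c
    rw [neg_add_cancel, hm0, one_mul] at hte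
    have e : mon u (-c) = b * (t / x) ^ 3 := by
      have h5 : mon u (-c) * x ^ 3 = b * t ^ 3 := by
        rw [← hx, ← hte]
        ring
      rw [div_pow]
      field_simp
      exact h5
    refine ⟨-c, ?_, x / t, ?_⟩
    · rw [hWmem, e]
      exact hcube b _ hb (div_ne_zero ht hx0)
    · rw [e]
      have hb0 := hne b hb
      field_simp
  have hne_bot : W ≠ ⊥ := by
    intro hbot
    obtain ⟨c, hc, x, hx⟩ := hfull D hPD
    rw [hbot, Submodule.mem_bot] at hc
    rw [hc, hm0, div_one] at hx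
    exact hnD ⟨x, hx⟩
  have hrank : 0 < Module.finrank (ZMod 3) W := by
    rw [Module.finrank_pos_iff]
    exact Submodule.nontrivial_iff_ne_bot.2 hne_bot
  obtain ⟨r, hr⟩ : ∃ r, Module.finrank (ZMod 3) W = r + 1 := ⟨_, (Nat.succ_pred_eq_of_pos hrank).symm⟩
  rw [hr] at hcard
  refine ⟨r, ?_⟩
  have hfinW : Finite W := inferInstance
  let e : W ≃ Fin (3 ^ (r + 1)) := (Finite.equivFin W).trans (finCongr hcard)
  refine ⟨fun i => mon u (e.symm i : Fin f → ZMod 3), fun i => (e.symm i).2, ?_, ?_⟩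
  · rintro i j hij ⟨x, hx⟩
    apply hij
    obtain ⟨t, -, hd⟩ := hadd ((e.symm i : Fin f → ZMod 3) - (e.symm j : Fin f → ZMod 3))
      (e.symm j : Fin f → ZMod 3)
    rw [sub_add_cancel] at hd
    have h0 := B.ind ((e.symm i : Fin f → ZMod 3) - (e.symm j : Fin f → ZMod 3)) ⟨x * t, by
      have h6 : mon u ((e.symm i : Fin f → ZMod 3) - (e.symm j : Fin f → ZMod 3)) =
          mon u (e.symm i : Fin f → ZMod 3) / mon u (e.symm j : Fin f → ZMod 3) * t ^ 3 := by
        have := hmn (e.symm j : Fin f → ZMod 3)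
        field_simp
        exact hd
      rw [h6, hx, mul_pow]⟩
    have h7 : e.symm i = e.symm j := Subtype.ext (sub_eq_zero.1 h0)
    exact e.symm.injective h7
  · intro b hb
    obtain ⟨c, hc, hx⟩ := hfull b hb
    refine ⟨e ⟨c, hc⟩, ?_⟩
    show IsPow 3 (b / mon u (e.symm (e ⟨c, hc⟩) : Fin f → ZMod 3))
    rw [Equiv.symm_apply_apply]
    exact hx

end Pool.Agent.Q296.EN
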